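import Mathlib
import Pool.Agent.Lib_helper58.MExp.Tools

/-!
# Cancellative pairs
-/

namespace Pool.Agent.Results.MP_53e9f9_co.Cancellative

open Pool.Agent.Lib_helper58.MExp

/-- If every `φ(·, b)` and every `ψ(a, ·)` is injective then `(φ, ψ)` is M-expansive; hence
`(χ, χ)` is M-expansive iff `χ` is a Latin square. -/
theorem result {S : Type*} [Fintype S] [DecidableEq S] :
    (∀ φ ψ : S → S → S, (∀ b, Function.Injective fun a => φ a b) →
      (∀ a, Function.Injective fun b => ψ a b) → MExpansive φ ψ) ∧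
    (∀ χ : S → S → S, MExpansive χ χ ↔
      (∀ a, Function.Injective fun b => χ a b) ∧ (∀ b, Function.Injective fun a => χ a b)) := by
  refine ⟨fun φ ψ h1 h2 => mExpansive_of_cancellative φ ψ h1 h2, fun χ => ⟨fun h => ⟨?_, ?_⟩,
    fun h => mExpansive_of_cancellative χ χ h.2 h.1⟩⟩
  · intro a x y hxy
    refine row_injective χ χ h a ?_
    simp only at hxy ⊢
    rw [hxy]
  · intro b x y hxy
    refine col_injective χ χ h b ?_
    simp only at hxy ⊢
    rw [hxy]

end Pool.Agent.Results.MP_53e9f9_co.Cancellative
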