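import Mathlib
import Pool.Agent.Lib_helper58.MExp.Tools

/-!
# Conservative pairs
-/

namespace Pool.Agent.Results.MP_53e9f9_co.Conservative

open Pool.Agent.Lib_helper58.MExp

/-- Let `φ, ψ` be conservative: `φ a b, ψ a b ∈ {a, b}`.  Then `(φ, ψ)` is M-expansive iff for
all `a, b` one of the two values is `a` and the other is `b`. -/
theorem result {S : Type*} [Fintype S] [DecidableEq S] (φ ψ : S → S → S)
    (hφ : ∀ a b, φ a b = a ∨ φ a b = b) (hψ : ∀ a b, ψ a b = a ∨ ψ a b = b) :
    MExpansive φ ψ ↔
      ∀ a b, (φ a b = a ∧ ψ a b = b) ∨ (φ a b = b ∧ ψ a b = a) := by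
  constructor
  · intro h a b
    by_cases hab : a = b
    · subst hab
      left
      exact ⟨by simpa using hφ a a, by simpa using hψ a a⟩
    have daφ : φ a a = a := by simpa using hφ a a
    have daψ : ψ a a = a := by simpa using hψ a a
    have dbφ : φ b b = b := by simpa using hφ b b
    have dbψ : ψ b b = b := by simpa using hψ b b
    rcases hφ a b with h1 | h1 <;> rcases hψ a b with h2 | h2
    · exfalso
      refine hab (row_injective φ ψ h a ?_)
      simp only [daφ, daψ, h1, h2]
    · exact Or.inl ⟨h1, h2⟩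
    · exact Or.inr ⟨h1, h2⟩
    · exfalso
      refine hab (col_injective φ ψ h b ?_)
      simp only [dbφ, dbψ, h1, h2]
  · exact mExpansive_of_exchange φ ψ

end Pool.Agent.Results.MP_53e9f9_co.Conservative
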