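import Mathlib
import Pool.Agent.Lib_helper58.MExp.Core

/-!
# Characterisation of M-expansive pairs

The definitions `MExpansive`, `EntropyExpansive`, `CardExpansive`, `extFst`, `extSnd` are in
`Pool.Agent.Lib_helper58.MExp.Core`.
-/

namespace Pool.Agent.Results.MP_53e9f9_co.EntropyCriterion

open Pool.Agent.Lib_helper58.MExp

/-- For a pair of binary operations on a finite set the following are equivalent:
M-expansivity; the entropy criterion (every two probability vectors have a coupling whose two
images carry at least the total entropy of the two vectors); expansivity for cardinalities of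
all extensions of the pair by bijections of finite fibres. -/
theorem result {S : Type*} [Fintype S] [DecidableEq S] (φ ψ : S → S → S) :
    (MExpansive φ ψ ↔ EntropyExpansive φ ψ) ∧
    (MExpansive φ ψ ↔ ∀ (n : ℕ) (e : S → S → Equiv.Perm (Fin n × Fin n)),
      CardExpansive (extFst φ e) (extSnd ψ e)) :=
  ⟨mExpansive_iff_entropyExpansive φ ψ,
    ⟨fun h _ e => cardExpansive_of_mExpansive φ ψ h e, mExpansive_of_cardExpansive φ ψ⟩⟩

end Pool.Agent.Results.MP_53e9f9_co.EntropyCriterion
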