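import Mathlib
import Pool.Agent.GXP.Crit

/-!
# M-expansive pairs of products of group homomorphisms
-/

namespace Pool.Agent.Results.MP_53e9f9_co.GroupPairs

open Pool.Agent.Lib_helper58.MExp

/-- (1) Let `P : G₁ → K₁`, `Q : G₂ → K₁`, `R : G₁ → K₂`, `T : G₂ → K₂` be homomorphisms of groups
(the images need not commute), `p`, `q` bijections of the finite set `S` with `G₁`, `G₂` and `r`,
`s` injections of `K₁`, `K₂` into `S`. For the pair `(a, b) ↦ r (P (p a) * Q (q b))`,
`(a, b) ↦ s (R (p a) * T (q b))` on `S` are equivalent: it is M-expansive;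
`|A| |B| ≤ |P(A) Q(B)| |R(A) T(B)|` for all subgroups; `Q` is injective on `V` and `R` on `U` for
all subgroups with `U = P⁻¹(Q(V))`, `V = T⁻¹(R(U))`; the same for one such pair of subgroups.
(2) The affine pairs on a finite abelian group. -/
theorem result :
    (∀ {S G₁ G₂ K₁ K₂ : Type} [Fintype S] [DecidableEq S] [Group G₁] [Group G₂] [Group K₁]
      [Group K₂] (p : S ≃ G₁) (q : S ≃ G₂) (r : K₁ → S) (s : K₂ → S),
      Function.Injective r → Function.Injective s →
      ∀ (P : G₁ →* K₁) (Q : G₂ →* K₁) (R : G₁ →* K₂) (T : G₂ →* K₂),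
      List.TFAE
        [MExpansive (fun a b => r (P (p a) * Q (q b))) (fun a b => s (R (p a) * T (q b))),
          ∀ (A : Subgroup G₁) (B : Subgroup G₂), Nat.card A * Nat.card B ≤
            (Set.image2 (fun a b => P a * Q b) (A : Set G₁) (B : Set G₂)).ncard *
            (Set.image2 (fun a b => R a * T b) (A : Set G₁) (B : Set G₂)).ncard,
          ∀ (U : Subgroup G₁) (V : Subgroup G₂), U = (V.map Q).comap P → V = (U.map R).comap T →
            Set.InjOn Q V ∧ Set.InjOn R U,
          ∃ (U : Subgroup G₁) (V : Subgroup G₂), U = (V.map Q).comap P ∧ V = (U.map R).comap T ∧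
            Set.InjOn Q V ∧ Set.InjOn R U]) ∧
    (∀ {G : Type} [AddCommGroup G] [Fintype G] [DecidableEq G] (P Q R T : G →+ G) (c d : G),
      (MExpansive (fun a b => P a + Q b + c) (fun a b => R a + T b + d) ↔
        ∀ A B : AddSubgroup G, Nat.card A * Nat.card B ≤
          Nat.card ↥(A.map P ⊔ B.map Q) * Nat.card ↥(A.map R ⊔ B.map T))) := by
  refine ⟨?_, ?_⟩
  · intro S G₁ G₂ K₁ K₂ _ _ _ _ _ _ p q r s hr hs P Q R T
    exact Pool.Agent.GXP.criterion p q r s hr hs P Q R T
  · intro G _ _ _ P Q R T c d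
    exact Pool.Agent.GXP.affine P Q R T c d

end Pool.Agent.Results.MP_53e9f9_co.GroupPairs
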